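import Pool.Agent.H74.GKKVarga

set_option autoImplicit false

namespace Pool.Agent.Results.MP_0e199b_al.LargestOrder

open Pool.Agent.H74.GKK

/-- Varga's inequality (V) for a matrix of order `n` with finite `l(A)`. -/
def SatV {n : ℕ} (A : Matrix (Fin n) (Fin n) ℂ) : Prop :=
  ∀ z ∈ spectrum ℂ A, z ≠ ((lmin A).toReal : ℂ) →
    |Complex.arg (z - ((lmin A).toReal : ℂ))| ≤ Real.pi / 2 - Real.pi / n

/-- The largest `N` such that every τ-matrix of order at most `N` satisfies (V) is `N = 3`. -/
theorem result :
    IsGreatest {N : ℕ | ∀ n ≤ N, ∀ A : Matrix (Fin n) (Fin n) ℂ, IsTau A → SatV A} 3 := by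
  refine ⟨fun n hn A h z hz hne => ?_, fun N hN => ?_⟩
  · interval_cases n
    · rw [mem_spec_iff] at hz; simp at hz
    · exact absurd (varga1 A h.1 z hz) hne
    · rw [varga2 A h.1 z hz hne]; simp
    · have := varga3 A h.1 z hz hne
      push_cast; linarith
  · by_contra h
    have h1 := hN 4 (by omega) _ V4_tau _ V4_eig
    rw [V4_l] at h1
    apply V4_fail
    have h2 := h1 (by
      intro h; have := congrArg Complex.re h; simp at this)
    simp only [EReal.toReal_coe, Complex.ofReal_zero, sub_zero] at h2
    push_cast at h2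
    linarith

end Pool.Agent.Results.MP_0e199b_al.LargestOrder
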